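import Pool.Agent.Y314.CT.Stm

set_option autoImplicit false

/-!
# The cross-ratio argument of project CT
-/

namespace Pool.Agent.Y367.CT

open Pool.Agent.Y314.CT
open scoped BigOperators

/-- The form `om` as a bilinear map. -/
noncomputable def omL (t : ℝ) : HV →ₗ[ℝ] HV →ₗ[ℝ] ZV :=
  LinearMap.mk₂ ℝ (om t) om_add_left om_smul_left om_add_right om_smul_right

theorem omL_apply (t : ℝ) (u w : HV) : omL t u w = om t u w := rfl

/-- Coordinates. -/
def co (p : Fin 4 × Bool) : HV →ₗ[ℝ] ℝ where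
  toFun u := if p.2 then (u p.1).1 else (u p.1).2
  map_add' u w := by by_cases h : p.2 <;> simp [h]
  map_smul' c u := by by_cases h : p.2 <;> simp [h]

theorem eq_sum (u : HV) : u = ∑ p : Fin 4 × Bool, co p u • ev p.1 p.2 := by
  rw [Fintype.sum_prod_type]
  simp only [Fintype.sum_bool]
  funext i
  rw [Finset.sum_apply, Finset.sum_eq_single i]
  · ext <;> simp [co, ev]
  · intro j _ hj
    ext <;> simp [co, ev, Pi.single_apply, hj.symm]
  · intro h; exact absurd (Finset.mem_univ i) h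

/-- The linear extension. -/
noncomputable def LL (σ : Fin 4 → Bool → HV) : HV →ₗ[ℝ] HV :=
  ∑ p : Fin 4 × Bool, (co p).smulRight (σ p.1 p.2)

theorem LL_apply (σ : Fin 4 → Bool → HV) (u : HV) :
    LL σ u = ∑ p : Fin 4 × Bool, co p u • σ p.1 p.2 := by
  simp [LL, LinearMap.sum_apply]

theorem bil {ι : Type} [Fintype ι] (B : HV →ₗ[ℝ] HV →ₗ[ℝ] ZV) (c d : ι → ℝ) (e f : ι → HV) :
    B (∑ p, c p • e p) (∑ q, d q • f q) = ∑ p, ∑ q, (c p * d q) • B (e p) (f q) := by
  rw [LinearMap.map_sum₂]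
  refine Finset.sum_congr rfl fun p _ => ?_
  rw [map_sum]
  refine Finset.sum_congr rfl fun q _ => ?_
  rw [map_smul, map_smul, LinearMap.smul_apply, smul_smul, mul_comm]

theorem om_LL {t s : ℝ} (σ : Fin 4 → Bool → HV) (M : ZV →ₗ[ℝ] ZV)
    (h : ∀ (i : Fin 4) (b : Bool) (j : Fin 4) (b' : Bool),
      om s (σ i b) (σ j b') = M (om t (ev i b) (ev j b'))) (u w : HV) :
    om s (LL σ u) (LL σ w) = M (om t u w) := by
  have h1 : om t u w = ∑ p : Fin 4 × Bool, ∑ q : Fin 4 × Bool,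
      (co p u * co q w) • om t (ev p.1 p.2) (ev q.1 q.2) := by
    conv_lhs => rw [eq_sum u, eq_sum w]
    exact bil (omL t) _ _ _ _
  have h2 : om s (LL σ u) (LL σ w) = ∑ p : Fin 4 × Bool, ∑ q : Fin 4 × Bool,
      (co p u * co q w) • om s (σ p.1 p.2) (σ q.1 q.2) := by
    rw [LL_apply, LL_apply]
    exact bil (omL s) _ _ _ _
  rw [h1, h2, map_sum]
  refine Finset.sum_congr rfl fun p _ => ?_
  rw [map_sum]
  refine Finset.sum_congr rfl fun q _ => ?_
  rw [map_smul, h]

theorem om_ev_false (t : ℝ) (u : HV) (j : Fin 4) : om t u (ev j false) = (u j).1 • cc t j := by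
  rw [om_eq_sum, Finset.sum_eq_single j]
  · simp [sy, ev]
  · intro i _ hi
    simp [sy, ev, Pi.single_apply, hi]
  · intro h; exact absurd (Finset.mem_univ j) h

theorem om_ev_true (t : ℝ) (u : HV) (j : Fin 4) : om t u (ev j true) = (-(u j).2) • cc t j := by
  rw [om_eq_sum, Finset.sum_eq_single j]
  · simp [sy, ev]
  · intro i _ hi
    simp [sy, ev, Pi.single_apply, hi]
  · intro h; exact absurd (Finset.mem_univ j) h

theorem om_true_ev (t : ℝ) (w : HV) (j : Fin 4) : om t (ev j true) w = (w j).2 • cc t j := by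
  rw [om_swap, om_ev_true, neg_smul, neg_neg]

theorem cc_ne (t : ℝ) (j : Fin 4) : cc t j ≠ 0 := by
  fin_cases j <;> simp [cc, Prod.ext_iff]

/-- The determinant. -/
def dt (x y : ZV) : ℝ := x.1 * y.2 - x.2 * y.1

theorem dt_smul_smul (a b : ℝ) (x y : ZV) : dt (a • x) (b • y) = a * b * dt x y := by
  simp [dt]; ring

/-- The determinant of a linear map. -/
noncomputable def dM (M : ZV →ₗ[ℝ] ZV) : ℝ := dt (M (1, 0)) (M (0, 1))

theorem dt_map (M : ZV →ₗ[ℝ] ZV) (x y : ZV) : dt (M x) (M y) = dM M * dt x y := by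
  have h : ∀ x : ZV, M x = x.1 • M (1, 0) + x.2 • M (0, 1) := by
    intro x
    rw [← map_smul, ← map_smul, ← map_add]
    congr 1
    ext <;> simp
  rw [h x, h y]
  simp only [dM, dt, Prod.fst_add, Prod.snd_add, Prod.smul_fst, Prod.smul_snd, smul_eq_mul]
  ring

theorem dM_ne (M : ZV →ₗ[ℝ] ZV) (hM : Function.Injective M) : dM M ≠ 0 := by
  intro h0
  have h : ∀ x : ZV, M x = x.1 • M (1, 0) + x.2 • M (0, 1) := by
    intro x
    rw [← map_smul, ← map_smul, ← map_add]
    congr 1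
    ext <;> simp
  have hz : ∀ x : ZV, M x = 0 → x = 0 := fun x hx => hM (by rw [hx, map_zero])
  simp only [dM, dt] at h0
  have h1 := hz ((M (0, 1)).1, -(M (1, 0)).1) (by
    rw [h]
    ext
    · simp only [Prod.fst_add, Prod.smul_fst, smul_eq_mul, Prod.fst_zero]; ring
    · simp only [Prod.snd_add, Prod.smul_snd, smul_eq_mul, Prod.snd_zero]; linarith)
  have h2 := hz ((M (0, 1)).2, -(M (1, 0)).2) (by
    rw [h]
    ext
    · simp only [Prod.fst_add, Prod.smul_fst, smul_eq_mul, Prod.fst_zero]; linarith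
    · simp only [Prod.snd_add, Prod.smul_snd, smul_eq_mul, Prod.snd_zero]; ring)
  have h3 : M (1, 0) = 0 := by
    rw [Prod.ext_iff] at h1 h2
    ext
    · simpa using h1.2
    · simpa using h2.2
  have h4 := hz _ h3
  simp [Prod.ext_iff] at h4

theorem LL_inj {t s : ℝ} (σ : Fin 4 → Bool → HV) (M : ZV →ₗ[ℝ] ZV) (hM : Function.Injective M)
    (h : ∀ (i : Fin 4) (b : Bool) (j : Fin 4) (b' : Bool),
      om s (σ i b) (σ j b') = M (om t (ev i b) (ev j b'))) : Function.Injective (LL σ) := by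
  rw [injective_iff_map_eq_zero]
  intro u hu
  have h1 : ∀ w, om t u w = 0 := by
    intro w
    apply hM
    rw [← om_LL σ M h, hu, om_zero_left, map_zero]
  funext j
  have h2 := h1 (ev j false)
  have h3 := h1 (ev j true)
  rw [om_ev_false, smul_eq_zero] at h2
  rw [om_ev_true, smul_eq_zero] at h3
  ext
  · simpa [cc_ne t j] using h2
  · simpa [cc_ne t j] using h3

theorem exists_corr {t s : ℝ} (σ : Fin 4 → Bool → HV) (M : ZV →ₗ[ℝ] ZV)
    (hM : Function.Injective M)
    (h : ∀ (i : Fin 4) (b : Bool) (j : Fin 4) (b' : Bool),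
      om s (σ i b) (σ j b') = M (om t (ev i b) (ev j b'))) (i : Fin 4) :
    ∃ (j : Fin 4) (μ : ℝ), μ ≠ 0 ∧ M (cc t j) = μ • cc s i := by
  have hinj := LL_inj σ M hM h
  have hsurj : Function.Surjective (LL σ) := LinearMap.injective_iff_surjective.1 hinj
  obtain ⟨u, hu⟩ := hsurj (ev i true)
  have hu0 : u ≠ 0 := by
    rintro rfl
    rw [map_zero] at hu
    have h1 := norm_ev i true
    rw [← hu] at h1
    simp at h1
  have hw : ∀ w, M (om t u w) = ((LL σ w) i).2 • cc s i := by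
    intro w
    rw [← om_LL σ M h, hu, om_true_ev]
  have hj : ∃ j, u j ≠ 0 := by
    by_contra hcon
    push Not at hcon
    exact hu0 (funext hcon)
  obtain ⟨j, hj⟩ := hj
  have key : ∃ (c : ℝ) (ν : ℝ), c ≠ 0 ∧ c • M (cc t j) = ν • cc s i := by
    by_cases h1 : (u j).1 = 0
    · have h2 : (u j).2 ≠ 0 := fun h2 => hj (Prod.ext h1 h2)
      refine ⟨-(u j).2, ((LL σ (ev j true)) i).2, neg_ne_zero.2 h2, ?_⟩
      rw [← hw, om_ev_true, map_smul]
    · refine ⟨(u j).1, ((LL σ (ev j false)) i).2, h1, ?_⟩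
      rw [← hw, om_ev_false, map_smul]
  obtain ⟨c, ν, hc, hν⟩ := key
  have h5 : M (cc t j) = (c⁻¹ * ν) • cc s i := by
    rw [mul_smul, ← hν, smul_smul, inv_mul_cancel₀ hc, one_smul]
  refine ⟨j, c⁻¹ * ν, ?_, h5⟩
  intro h6
  rw [h6, zero_smul] at h5
  exact cc_ne t j (hM (by rw [h5, map_zero]))

theorem final {t s : ℝ} (ht : 2 < t) (hs : 2 < s) (a b c d : Fin 4) (h1 : a ≠ b) (h2 : a ≠ c)
    (h3 : a ≠ d) (h4 : b ≠ c) (h5 : b ≠ d) (h6 : c ≠ d)
    (h : s * (dt (cc t a) (cc t c) * dt (cc t b) (cc t d)) =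
      dt (cc t a) (cc t d) * dt (cc t b) (cc t c)) : t = s := by
  have hp : 0 < (t - 2) * (s - 2) := mul_pos (by linarith) (by linarith)
  fin_cases a <;> fin_cases b <;> first
    | exact absurd rfl h1
    | (fin_cases c <;> first
        | exact absurd rfl h2
        | exact absurd rfl h4
        | (fin_cases d <;> first
            | exact absurd rfl h3
            | exact absurd rfl h5
            | exact absurd rfl h6
            | (simp [dt, cc] at h; nlinarith)))

theorem dts {s : ℝ} (hs : 2 < s) {i k : Fin 4} (h : i ≠ k) : dt (cc s i) (cc s k) ≠ 0 := by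
  fin_cases i <;> fin_cases k <;> first
    | exact absurd rfl h
    | (simp [dt, cc]; done)
    | (simp [dt, cc]; intro h0; linarith)

theorem t_CR : S_CR := by
  intro t s ht hs σ M hM h
  have hE := exists_corr (s := s) σ M hM h
  choose j μ hμ hj using hE
  have hrel : ∀ i k, dM M * dt (cc t (j i)) (cc t (j k)) = μ i * μ k * dt (cc s i) (cc s k) := by
    intro i k
    rw [← dt_map, hj, hj, dt_smul_smul]
  have hd := dM_ne M hM
  have hne : ∀ i k, i ≠ k → j i ≠ j k := by
    intro i k hik hjj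
    have h1 := hrel i k
    rw [hjj] at h1
    have h2 : dt (cc t (j k)) (cc t (j k)) = 0 := by simp [dt]; ring
    rw [h2, mul_zero] at h1
    exact (mul_ne_zero (mul_ne_zero (hμ i) (hμ k)) (dts hs hik)) h1.symm
  refine final ht hs (j 0) (j 1) (j 2) (j 3) (hne _ _ (by decide)) (hne _ _ (by decide))
    (hne _ _ (by decide)) (hne _ _ (by decide)) (hne _ _ (by decide)) (hne _ _ (by decide)) ?_
  have e1 := hrel 0 2
  have e2 := hrel 1 3
  have e3 := hrel 0 3
  have e4 := hrel 1 2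
  have d1 : dt (cc s 0) (cc s 2) = 1 := by simp [dt, cc]
  have d2 : dt (cc s 1) (cc s 3) = -1 := by simp [dt, cc]
  have d3 : dt (cc s 0) (cc s 3) = s := by simp [dt, cc]
  have d4 : dt (cc s 1) (cc s 2) = -1 := by simp [dt, cc]
  rw [d1] at e1
  rw [d2] at e2
  rw [d3] at e3
  rw [d4] at e4
  have hd2 : dM M * dM M ≠ 0 := mul_ne_zero hd hd
  apply mul_left_cancel₀ hd2
  calc dM M * dM M * (s * (dt (cc t (j 0)) (cc t (j 2)) * dt (cc t (j 1)) (cc t (j 3))))
      = s * (dM M * dt (cc t (j 0)) (cc t (j 2))) * (dM M * dt (cc t (j 1)) (cc t (j 3))) := by ring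
    _ = (dM M * dt (cc t (j 0)) (cc t (j 3))) * (dM M * dt (cc t (j 1)) (cc t (j 2))) := by
        rw [e1, e2, e3, e4]; ring
    _ = _ := by ring

end Pool.Agent.Y367.CT
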